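import Mathlib

/-!
# Finite J-height is not inherited by bi-ideals

The semigroup is `S = K × T`, where `K` is the semigroup of all injective maps `f : ℕ → ℕ` with
infinite complement of the image (composed from right to left, so that it is left simple) and `T`
is the monoid with three elements `1, ε, 0`, `ε * ε = 0`. It has J-height three, and a right ideal
of infinite J-height.
-/

set_option autoImplicit false

namespace Pool.Agent.Results.MP_92d133_al.RightIdeal

universe u

/-- Green's preorder: `a ≤ b` if `a` belongs to `S¹ b S¹`. -/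
def JLE {S : Type u} [Semigroup S] (a b : S) : Prop :=
  a = b ∨ (∃ x : S, a = x * b) ∨ (∃ y : S, a = b * y) ∨ ∃ x y : S, a = x * b * y

/-- There is a chain of `k` distinct J-classes: `f 0 > f 1 > ... > f (k - 1)` in the J-order. -/
def HasChain (S : Type u) [Semigroup S] (k : ℕ) : Prop :=
  ∃ f : Fin k → S, ∀ i j : Fin k, i < j → JLE (f j) (f i) ∧ ¬ JLE (f i) (f j)

/-- The J-height: the supremum of the cardinalities of the chains of J-classes. -/
noncomputable def jHeight (S : Type u) [Semigroup S] : ℕ∞ :=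
  ⨆ (k : ℕ) (_ : HasChain S k), (k : ℕ∞)

/-- The injective maps whose image has infinite complement. -/
structure K where
  /-- the map -/
  f : ℕ → ℕ
  inj : Function.Injective f
  inf : (Set.range f)ᶜ.Infinite

theorem K.ext' {f g : K} (h : f.f = g.f) : f = g := by
  cases f; cases g; cases h; rfl

instance : Semigroup K where
  mul f g := ⟨f.f ∘ g.f, f.inj.comp g.inj, f.inf.mono (by
    intro y hy hc
    obtain ⟨x, hx⟩ := hc
    exact hy ⟨g.f x, hx⟩)⟩
  mul_assoc f g h := rfl

theorem K.mul_apply (f g : K) (x : ℕ) : (f * g).f x = f.f (g.f x) := rfl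

/-- `K` is left simple. -/
theorem K.left_simple (f g : K) : ∃ m : K, g = m * f := by
  classical
  let q := g.inf.natEmbedding
  have hq : ∀ n, ((q n : ℕ)) ∉ Set.range g.f := fun n => (q n).2
  have hqi : ∀ a b, ((q a : ℕ)) = (q b : ℕ) → a = b := fun a b h => q.injective (Subtype.ext h)
  let m : ℕ → ℕ := fun y => if h : ∃ x, f.f x = y then g.f h.choose else q (2 * y)
  have m1 : ∀ x, m (f.f x) = g.f x := by
    intro x
    have h : ∃ x', f.f x' = f.f x := ⟨x, rfl⟩
    have h' : h.choose = x := f.inj h.choose_spec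
    simp only [m, dif_pos h, h']
  have m2 : ∀ y, (¬ ∃ x, f.f x = y) → m y = q (2 * y) := by
    intro y h
    simp only [m, dif_neg h]
  refine ⟨⟨m, ?_, ?_⟩, K.ext' ?_⟩
  · intro y y' h
    by_cases h1 : ∃ x, f.f x = y
    · obtain ⟨x, rfl⟩ := h1
      rw [m1] at h
      by_cases h2 : ∃ x, f.f x = y'
      · obtain ⟨x', rfl⟩ := h2
        rw [m1] at h
        rw [g.inj h]
      · rw [m2 y' h2] at h
        exact absurd ⟨x, h⟩ (hq _)
    · rw [m2 y h1] at h
      by_cases h2 : ∃ x, f.f x = y'
      · obtain ⟨x', rfl⟩ := h2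
        rw [m1] at h
        exact absurd ⟨x', h.symm⟩ (hq _)
      · rw [m2 y' h2] at h
        have := hqi _ _ h
        omega
  · refine Set.infinite_of_injective_forall_mem (f := fun n : ℕ => (q (2 * n + 1) : ℕ)) ?_ ?_
    · intro a b h
      have := hqi _ _ h
      omega
    · rintro n ⟨y, hy⟩
      by_cases h1 : ∃ x, f.f x = y
      · obtain ⟨x, rfl⟩ := h1
        rw [m1] at hy
        exact hq _ ⟨x, hy⟩
      · rw [m2 y h1] at hy
        have := hqi _ _ hy
        omega
  · funext x
    exact (m1 x).symm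

/-- The monoid `{1, ε, 0}`, realised as `{0, 1, 2}` with truncated addition. -/
structure T where
  /-- the exponent -/
  n : ℕ
  le : n ≤ 2

theorem T.ext' {s t : T} (h : s.n = t.n) : s = t := by
  cases s; cases t; cases h; rfl

instance : Semigroup T where
  mul s t := ⟨min (s.n + t.n) 2, min_le_right _ _⟩
  mul_assoc s t u := T.ext' (by
    show min (min (s.n + t.n) 2 + u.n) 2 = min (s.n + min (t.n + u.n) 2) 2
    omega)

theorem T.mul_n (s t : T) : (s * t).n = min (s.n + t.n) 2 := rfl

/-- The semigroup of the example. -/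
abbrev S : Type := K × T

theorem le_of_JLE {a b : S} (h : JLE a b) : b.2.n ≤ a.2.n := by
  have h2 := b.2.le
  rcases h with rfl | ⟨x, rfl⟩ | ⟨y, rfl⟩ | ⟨x, y, rfl⟩
  · exact le_rfl
  · rw [Prod.snd_mul, T.mul_n]; omega
  · rw [Prod.snd_mul, T.mul_n]; omega
  · rw [Prod.snd_mul, Prod.snd_mul, T.mul_n, T.mul_n]; omega

theorem JLE_of_le {a b : S} (h : b.2.n ≤ a.2.n) : JLE a b := by
  obtain ⟨m, hm⟩ := K.left_simple b.1 a.1
  have ha := a.2.le
  refine Or.inr (Or.inl ⟨(m, ⟨a.2.n - b.2.n, by omega⟩), Prod.ext hm (T.ext' ?_)⟩)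
  rw [Prod.snd_mul, T.mul_n]
  simp only
  omega

/-- the powers of the map `n ↦ 2 * n + 1` -/
def cp (i : ℕ) (n : ℕ) : ℕ := 2 ^ i * (n + 1) - 1

theorem cp_succ (i n : ℕ) : cp i n + 1 = 2 ^ i * (n + 1) :=
  Nat.sub_add_cancel (Nat.mul_pos (by positivity) (by omega))

theorem cp_comp (i j n : ℕ) : cp i (cp j n) = cp (i + j) n := by
  have h1 := cp_succ i (cp j n)
  rw [cp_succ j n, ← mul_assoc, ← pow_add, ← cp_succ (i + j) n] at h1
  omega

theorem cp_inj (i : ℕ) : Function.Injective (cp i) := by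
  intro a b h
  have h1 : cp i a + 1 = cp i b + 1 := by rw [h]
  rw [cp_succ, cp_succ] at h1
  have := Nat.eq_of_mul_eq_mul_left (by positivity) h1
  omega

theorem cp_odd {i : ℕ} (hi : 0 < i) (n : ℕ) : cp i n % 2 = 1 := by
  have h1 := cp_succ i n
  obtain ⟨j, rfl⟩ : ∃ j, i = j + 1 := ⟨i - 1, by omega⟩
  rw [pow_succ', mul_assoc] at h1
  omega

/-- the `i`-th power of the map `n ↦ 2 * n + 1`, for `i > 0`, as an element of `K` -/
def cK (i : ℕ) (hi : 0 < i) : K where
  f := cp i
  inj := cp_inj i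
  inf := Set.infinite_of_injective_forall_mem (f := fun n : ℕ => 2 * n)
    (fun a b h => by simp only at h; omega) (by
      rintro n ⟨x, hx⟩
      have := cp_odd hi x
      omega)

/-- the map `n ↦ 2 * n` composed with the `i`-th power of `n ↦ 2 * n + 1` -/
def xK (i : ℕ) : K where
  f n := 2 * cp i n
  inj a b h := cp_inj i (by simp only at h; omega)
  inf := Set.infinite_of_injective_forall_mem (f := fun n : ℕ => 2 * n + 1)
    (fun a b h => by simp only at h; omega) (by
      rintro n ⟨x, hx⟩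
      simp only at hx
      omega)

/-- The right ideal: all `(f, 1)` such that `f` has odd values only, all `(f, ε)` such that `f` has
only odd or only even values, and all `(f, 0)`. -/
def B : Subsemigroup S where
  carrier := {a | (a.2.n = 0 → ∀ x, a.1.f x % 2 = 1) ∧
    (a.2.n = 1 → (∀ x, a.1.f x % 2 = 1) ∨ ∀ x, a.1.f x % 2 = 0)}
  mul_mem' := by
    rintro ⟨f, s⟩ ⟨g, t⟩ ⟨h1, h2⟩ -
    refine ⟨fun h x => ?_, fun h => ?_⟩
    · have : s.n = 0 := by
        have h' : min (s.n + t.n) 2 = 0 := h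
        omega
      exact h1 this _
    · have h' : min (s.n + t.n) 2 = 1 := h
      rcases Nat.eq_zero_or_pos s.n with h0 | h0
      · exact Or.inl fun x => h1 h0 _
      · have : s.n = 1 := by omega
        rcases h2 this with h3 | h3
        · exact Or.inl fun x => h3 _
        · exact Or.inr fun x => h3 _

theorem B_right {a : S} (ha : a ∈ B) (b : S) : a * b ∈ B := by
  obtain ⟨f, s⟩ := a
  obtain ⟨g, t⟩ := b
  obtain ⟨h1, h2⟩ := ha
  refine ⟨fun h x => ?_, fun h => ?_⟩
  · have : s.n = 0 := by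
      have h' : min (s.n + t.n) 2 = 0 := h
      omega
    exact h1 this _
  · have h' : min (s.n + t.n) 2 = 1 := h
    rcases Nat.eq_zero_or_pos s.n with h0 | h0
    · exact Or.inl fun x => h1 h0 _
    · have : s.n = 1 := by omega
      rcases h2 this with h3 | h3
      · exact Or.inl fun x => h3 _
      · exact Or.inr fun x => h3 _

/-- the elements of the descending chain -/
def xB (i : ℕ) : B :=
  ⟨(xK i, ⟨1, by omega⟩), fun h => absurd h (by simp), fun _ => Or.inr fun x => by
    show 2 * cp i x % 2 = 0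
    omega⟩

/-- the multipliers -/
def cB (i : ℕ) (hi : 0 < i) : B :=
  ⟨(cK i hi, ⟨0, by omega⟩), fun _ x => cp_odd hi x, fun h => absurd h (by simp)⟩

theorem chainB (i j : ℕ) (hij : i < j) : JLE (xB j) (xB i) ∧ ¬ JLE (xB i) (xB j) := by
  constructor
  · refine Or.inr (Or.inr (Or.inl ⟨cB (j - i) (by omega), Subtype.ext (Prod.ext (K.ext' ?_)
      (T.ext' rfl))⟩))
    funext n
    show 2 * cp j n = 2 * cp i (cp (j - i) n)
    rw [cp_comp, Nat.add_sub_cancel' hij.le]
  · intro h
    -- the value of `xK i` at `0` is not a value of `xK j`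
    have key : ∀ n, 2 * cp i 0 ≠ 2 * cp j n := by
      intro n hn
      have h1 := cp_succ i 0
      have h2 := cp_succ j n
      have h3 : 2 ^ i * 1 = 2 ^ j * (n + 1) := by
        rw [zero_add] at h1
        omega
      have h4 : 2 ^ i < 2 ^ j := Nat.pow_lt_pow_right (by omega) hij
      have h5 : 2 ^ j * 1 ≤ 2 ^ j * (n + 1) := Nat.mul_le_mul_left _ (by omega)
      omega
    have left : ∀ (b : B) (g : ℕ → ℕ), b.1.2.n = 0 → (∀ n, 2 * cp i n = b.1.1.f (g n)) →
        False := by
      intro b g hb hg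
      have h1 := b.2.1 hb (g 0)
      rw [← hg 0] at h1
      omega
    rcases h with h | ⟨x, h⟩ | ⟨y, h⟩ | ⟨x, y, h⟩
    · have h1 : 2 * cp i 0 = 2 * cp j 0 := congrArg (fun b : B => b.1.1.f 0) h
      exact key 0 h1
    · have h2 : 1 = min (x.1.2.n + 1) 2 := congrArg (fun b : B => b.1.2.n) h
      exact left x (fun n => 2 * cp j n) (by omega)
        fun n => congrArg (fun b : B => b.1.1.f n) h
    · have h1 : 2 * cp i 0 = 2 * cp j (y.1.1.f 0) := congrArg (fun b : B => b.1.1.f 0) h
      exact key _ h1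
    · have h2 : 1 = min (min (x.1.2.n + 1) 2 + y.1.2.n) 2 := congrArg (fun b : B => b.1.2.n) h
      exact left x (fun n => 2 * cp j (y.1.1.f n)) (by omega)
        fun n => congrArg (fun b : B => b.1.1.f n) h

theorem jHeight_B : jHeight B = ⊤ := by
  rw [ENat.eq_top_iff_forall_ge]
  intro k
  refine le_iSup₂_of_le k ⟨fun i => xB i, fun i j hij => chainB i j hij⟩ le_rfl

theorem jHeight_S : jHeight S = 3 := by
  apply le_antisymm
  · refine iSup₂_le fun k hk => ?_
    obtain ⟨f, hf⟩ := hk
    have h1 : StrictMono fun i : Fin k => (⟨(f i).2.n, by have := (f i).2.le; omega⟩ : Fin 3) := by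
      intro i j hij
      obtain ⟨h2, h3⟩ := hf i j hij
      have h4 : ¬ (f j).2.n ≤ (f i).2.n := fun h => h3 (JLE_of_le h)
      show (f i).2.n < (f j).2.n
      omega
    have := Fintype.card_le_of_injective _ h1.injective
    rw [Fintype.card_fin, Fintype.card_fin] at this
    exact_mod_cast this
  · refine le_iSup₂_of_le 3 ⟨fun i => (xK 0, ⟨i, by omega⟩), fun i j hij => ⟨?_, ?_⟩⟩ le_rfl
    · exact JLE_of_le (le_of_lt hij)
    · intro h
      have h1 : (j : ℕ) ≤ i := le_of_JLE h
      exact absurd hij (not_lt.2 h1)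

/-- There are a semigroup `S` of J-height `3` and a bi-ideal `B` of `S` (even a right ideal) which,
as a semigroup in its own right, has infinite J-height. -/
theorem result : ∃ (S : Type) (_ : Semigroup S) (B : Subsemigroup S),
    jHeight S = 3 ∧ (B : Set S).Nonempty ∧ (∀ a ∈ B, ∀ s : S, a * s ∈ B) ∧
      (∀ a ∈ B, ∀ s : S, ∀ b ∈ B, a * s * b ∈ B) ∧ jHeight B = ⊤ :=
  ⟨S, inferInstance, B, jHeight_S, ⟨_, (xB 0).2⟩, fun _ ha s => B_right ha s,
    fun _ ha s b _ => B_right (B_right ha s) b, jHeight_B⟩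

end Pool.Agent.Results.MP_92d133_al.RightIdeal
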